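import Pool.Agent.Y399.KU.A
import Pool.Agent.Helper548.KnotD.D6

/-!
# Small sets of vertices which contain all knots with at most `k` crossings

In every linear spatial embedding of a complete graph, each set of `C k ^ d` vertices contains a set
`V` of at most `4 k + 4` vertices such that the complete graph on `V` contains all tame knots with at
most `k` crossings at once, as cycles up to ambient isotopy. So all but fewer than `C k ^ d` vertices
of `K_n` can be divided into disjoint sets `V` of this kind, and every knot with at most `k` crossings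
occurs in more than `(n - C k ^ d) / (4 k + 4)` pairwise disjoint cycles, each of length at most
`4 k + 4`. All this is true for all finite sets of points in space with at most four points in each
plane, whether or not edges cross. In particular `n(k) ≤ C k ^ d` for both notions of containment.

Method: `KnotA.partA` gives two sequences `a`, `b` of `2 k + 2` points of the given set such that all
the tetrahedra `a_i a_j b_p b_q`, `i < j`, `p < q`, have the same orientation; it does not depend on
the knot. By `partC`, `spokes` and `partB` every polygon with a diagram with `j` crossings,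
`1 ≤ j ≤ k`, is isotopic to an alternating polygon in the first `2 j + 2` or fewer points of both.
-/

set_option autoImplicit false

namespace Pool.Agent.Results.MP_188a32_co.UniversalSubsets

open Knot548

/-- The closed polygon with vertex list `L`, as a subset of space. -/
def polygon (L : List R3) : Set R3 := {q | ∃ e ∈ cedges L, q ∈ segment ℝ e.1 e.2}

/-- Ambient isotopy: `A` is carried to `B` by a continuous family of homeomorphisms of `ℝ³` starting
with the identity. -/
def AmbientIsotopic (A B : Set R3) : Prop :=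
  ∃ H : unitInterval → R3 ≃ₜ R3, Continuous (fun q : unitInterval × R3 => H q.1 q.2) ∧
    (∀ x, H 0 x = x) ∧ H 1 '' A = B

/-- A tame knot: a subset of `ℝ³` that is ambient isotopic to a simple closed polygon. -/
def IsTameKnot (K : Set R3) : Prop :=
  ∃ L : List R3, 3 ≤ L.length ∧ Simple L ∧ AmbientIsotopic K (polygon L)

/-- The crossing number of `K`: the least number of crossings of a regular projection of a simple
closed polygon ambient isotopic to `K`. -/
noncomputable def crossingNumber (K : Set R3) : ℕ :=
  sInf {k | ∃ L : List R3, IsDiagram L k ∧ AmbientIsotopic K (polygon L)}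

/-- Sense (ii): some cycle of the complete graph is a polygon that is ambient isotopic to `K`. -/
def ContainsIsotopic {n : ℕ} (f : Fin n → R3) (K : Set R3) : Prop :=
  ∃ c : List (Fin n), 3 ≤ c.length ∧ c.Nodup ∧ AmbientIsotopic (polygon (c.map f)) K

/-- Sense (i): some cycle of the complete graph is a polygon that is carried to `K` by a
homeomorphism of `ℝ³`. -/
def ContainsHomeomorphic {n : ℕ} (f : Fin n → R3) (K : Set R3) : Prop :=
  ∃ c : List (Fin n), 3 ≤ c.length ∧ c.Nodup ∧ ∃ g : R3 ≃ₜ R3, g '' polygon (c.map f) = K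

/-- `n(K)` in sense (ii). -/
noncomputable def nKnotIsotopic (K : Set R3) : ℕ :=
  sInf {n | ∀ f : Fin n → R3, LinEmb f → ContainsIsotopic f K}

/-- `n(K)` in sense (i). -/
noncomputable def nKnotHomeomorphic (K : Set R3) : ℕ :=
  sInf {n | ∀ f : Fin n → R3, LinEmb f → ContainsHomeomorphic f K}

/-- the values `n(K)` for the knots `K` with crossing number `k`, sense (ii) -/
def valuesIsotopic (k : ℕ) : Set ℕ :=
  {m | ∃ K : Set R3, IsTameKnot K ∧ crossingNumber K = k ∧ nKnotIsotopic K = m}

/-- the values `n(K)` for the knots `K` with crossing number `k`, sense (i) -/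
def valuesHomeomorphic (k : ℕ) : Set ℕ :=
  {m | ∃ K : Set R3, IsTameKnot K ∧ crossingNumber K = k ∧ nKnotHomeomorphic K = m}

/-- The points `f i` are distinct, and at most four of them are in any plane. -/
def FourPerPlane {n : ℕ} (f : Fin n → R3) : Prop :=
  Function.Injective f ∧ ∀ (g : R3 →ₗ[ℝ] ℝ) (c : ℝ), g ≠ 0 →
    (Finset.univ.filter (fun i => g (f i) = c)).card ≤ 4

/-- The set `V` has at most `4 k + 4` elements, and each tame knot with crossing number at least `1`
and at most `k` is ambient isotopic to a cycle with vertices in `V`. -/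
def Universal {n : ℕ} (f : Fin n → R3) (k : ℕ) (V : Finset (Fin n)) : Prop :=
  V.card ≤ 4 * k + 4 ∧ ∀ K : Set R3, IsTameKnot K → 1 ≤ crossingNumber K → crossingNumber K ≤ k →
    ∃ c : List (Fin n), 3 ≤ c.length ∧ c.Nodup ∧ (∀ x ∈ c, x ∈ V) ∧
      AmbientIsotopic (polygon (c.map f)) K

/-- The sets in `F` are pairwise disjoint and `Universal`, and they cover all but fewer than `N`
vertices; so there are more than `(n - N) / (4 k + 4)` of them. -/
def NearTiling {n : ℕ} (f : Fin n → R3) (k N : ℕ) (F : Finset (Finset (Fin n))) : Prop :=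
  (∀ V ∈ F, Universal f k V) ∧ (∀ V ∈ F, ∀ W ∈ F, V ≠ W → Disjoint V W) ∧
    (Finset.univ.filter fun x => ∀ V ∈ F, x ∉ V).card < N ∧ n < N + (4 * k + 4) * F.card

theorem universal_of_univ {n : ℕ} {f : Fin n → R3} {k : ℕ} {V : Finset (Fin n)}
    (h1 : V.card ≤ 4 * k + 4) (h2 : Pool.Agent.Y399.KU.Univ f k V) : Universal f k V := by
  refine ⟨h1, fun K _ hc1 hck => ?_⟩
  have hne : {k | ∃ L : List R3, IsDiagram L k ∧ AmbientIsotopic K (polygon L)}.Nonempty := by
    rw [Set.nonempty_iff_ne_empty]
    intro he
    unfold crossingNumber at hc1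
    rw [he, Nat.sInf_empty] at hc1
    omega
  have hmem := Nat.sInf_mem hne
  change crossingNumber K ∈ _ at hmem
  obtain ⟨L, hL, hKL⟩ := hmem
  obtain ⟨c, h3, h4, h5, h6⟩ := h2 _ hc1 hck L hL
  have h7 : AmbIso (polygon (c.map f)) (polygon L) := ambIso_of_eqv _ _ h6
  exact ⟨c, h3, h4, h5, AmbIso.trans h7 (AmbIso.symm hKL)⟩

theorem homeomorphic_of_isotopic {n : ℕ} {f : Fin n → R3} {K : Set R3} (h : ContainsIsotopic f K) :
    ContainsHomeomorphic f K := by
  obtain ⟨c, h1, h2, H, -, -, h3⟩ := h
  exact ⟨c, h1, h2, H 1, h3⟩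

/-- There are constants `C`, `d` such that for every `k ≥ 3`:

1. For every linear spatial embedding `f` of `K_n`, and for all points `f 0, …, f (n - 1)` with at
   most four in each plane, every set of at least `C k ^ d` vertices contains a set of at most
   `4 k + 4` vertices whose cycles represent all tame knots with crossing number at least `1` and at
   most `k`. There are disjoint sets of this kind covering all but fewer than `C k ^ d` vertices.
2. Every tame knot `K` with crossing number `k` is contained, in sense (ii) and in sense (i), in every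
   linear spatial embedding of `K_n` for every `n ≥ C k ^ d`; hence `n(k) ≤ C k ^ d` in both senses. -/
theorem result : ∃ C d : ℕ, ∀ k : ℕ, 3 ≤ k →
    (∀ (n : ℕ) (f : Fin n → R3), LinEmb f ∨ FourPerPlane f →
      (∀ S : Finset (Fin n), C * k ^ d ≤ S.card → ∃ V ⊆ S, Universal f k V) ∧
      ∃ F : Finset (Finset (Fin n)), NearTiling f k (C * k ^ d) F) ∧
    (∀ K : Set R3, IsTameKnot K → crossingNumber K = k → ∀ n : ℕ, C * k ^ d ≤ n →
      ∀ f : Fin n → R3, LinEmb f → ContainsIsotopic f K ∧ ContainsHomeomorphic f K) ∧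
    (∀ m ∈ valuesIsotopic k, m ≤ C * k ^ d) ∧ sSup (valuesIsotopic k) ≤ C * k ^ d ∧
    (∀ m ∈ valuesHomeomorphic k, m ≤ C * k ^ d) ∧ sSup (valuesHomeomorphic k) ≤ C * k ^ d := by
  classical
  obtain ⟨C, d, h⟩ := Pool.Agent.Y399.KU.exists_univ
  refine ⟨C, d, ?_⟩
  intro k hk
  have hfour : ∀ (n : ℕ) (f : Fin n → R3), LinEmb f ∨ FourPerPlane f →
      Pool.Agent.Y399.KU.FourPerPlane f := by
    rintro n f (hf | hf)
    · exact Pool.Agent.Y399.KU.fourPerPlane_of_linEmb hf
    · exact hf
  have huniv : ∀ (n : ℕ) (f : Fin n → R3), LinEmb f ∨ FourPerPlane f →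
      ∀ S : Finset (Fin n), C * k ^ d ≤ S.card → ∃ V ⊆ S, V.Nonempty ∧ Universal f k V := by
    intro n f hf S hS
    obtain ⟨V, h1, h2, h3, h4⟩ := h k (by omega) n f (hfour n f hf) S hS
    exact ⟨V, h1, h2, universal_of_univ h3 h4⟩
  have hmain : ∀ K : Set R3, IsTameKnot K → crossingNumber K = k → ∀ n : ℕ, C * k ^ d ≤ n →
      ∀ f : Fin n → R3, LinEmb f → ContainsIsotopic f K := by
    intro K hK hc n hn f hf
    obtain ⟨V, -, -, -, h2⟩ := huniv n f (Or.inl hf) Finset.univ (by
      rw [Finset.card_univ, Fintype.card_fin]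
      exact hn)
    obtain ⟨c, h3, h4, -, h5⟩ := h2 K hK (by omega) hc.le
    exact ⟨c, h3, h4, h5⟩
  have h1 : ∀ m ∈ valuesIsotopic k, m ≤ C * k ^ d := by
    rintro m ⟨K, hK, hc, rfl⟩
    exact Nat.sInf_le (fun f hf => hmain K hK hc _ le_rfl f hf)
  have h2 : ∀ m ∈ valuesHomeomorphic k, m ≤ C * k ^ d := by
    rintro m ⟨K, hK, hc, rfl⟩
    exact Nat.sInf_le (fun f hf => homeomorphic_of_isotopic (hmain K hK hc _ le_rfl f hf))
  have h3 : ∀ S : Set ℕ, (∀ m ∈ S, m ≤ C * k ^ d) → sSup S ≤ C * k ^ d := by
    intro S hS
    rcases Set.eq_empty_or_nonempty S with he | hne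
    · rw [he]; simp
    · exact csSup_le hne hS
  refine ⟨fun n f hf => ⟨?_, ?_⟩, ?_, h1, h3 _ h1, h2, h3 _ h2⟩
  · intro S hS
    obtain ⟨V, hV1, -, hV2⟩ := huniv n f hf S hS
    exact ⟨V, hV1, hV2⟩
  · obtain ⟨F, hF1, hF2, hF3⟩ := Pool.Agent.Y399.KU.tiling (C * k ^ d) (Universal f k)
      (huniv n f hf) _ Finset.univ rfl
    have he : (Finset.univ.filter fun x => ∀ V ∈ F, x ∉ V) = Finset.univ \ F.biUnion id := by
      ext x
      simp only [Finset.mem_filter, Finset.mem_univ, true_and, Finset.mem_sdiff,
        Finset.mem_biUnion, id, not_exists, not_and]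
    refine ⟨F, fun V hV => (hF1 V hV).2, hF2, ?_, ?_⟩
    · rw [he]
      exact hF3
    · have h4 : (F.biUnion id).card ≤ F.card * (4 * k + 4) :=
        Finset.card_biUnion_le_card_mul _ _ _ fun V hV => (hF1 V hV).2.1
      have h5 : n ≤ (Finset.univ \ F.biUnion id).card + (F.biUnion id).card := by
        have h6 := Finset.card_le_card_sdiff_add_card (s := (Finset.univ : Finset (Fin n)))
          (t := F.biUnion id)
        rwa [Finset.card_univ, Fintype.card_fin] at h6
      rw [mul_comm] at h4
      omega
  · intro K hK hc n hn f hf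
    have h4 := hmain K hK hc n hn f hf
    exact ⟨h4, homeomorphic_of_isotopic h4⟩

end Pool.Agent.Results.MP_188a32_co.UniversalSubsets
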